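import Mathlib

/-!
# Equal-degree vertices joined by a path of length three: basic lemmas (MP_b875bc_co)
-/

namespace Pool.Agent.R866.EqDeg

open Finset

variable {V : Type*} [Fintype V] [DecidableEq V] {G : SimpleGraph V} [DecidableRel G.Adj]

/-- No two distinct vertices of equal degree are joined by a path of length three. -/
def NoPath (G : SimpleGraph V) [DecidableRel G.Adj] : Prop :=
  ∀ x x' y z, x ≠ x' → G.degree x = G.degree x' → y ≠ x' → z ≠ x →
    G.Adj x y → G.Adj y z → G.Adj z x' → False

lemma inter_sub (H : NoPath G) {x x' y : V} (hne : x ≠ x') (hd : G.degree x = G.degree x')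
    (hxy : G.Adj x y) (hyx : y ≠ x') :
    G.neighborFinset y ∩ G.neighborFinset x' ⊆ {x} := by
  intro z hz
  rw [mem_inter, SimpleGraph.mem_neighborFinset, SimpleGraph.mem_neighborFinset] at hz
  rw [mem_singleton]
  by_contra hzx
  exact H x x' y z hne hd hyx hzx hxy hz.1 hz.2.symm

lemma card_bound (y x' : V) (I M : Finset V)
    (hI : G.neighborFinset y ∩ G.neighborFinset x' ⊆ I)
    (hM : ∀ m ∈ M, ¬ G.Adj y m ∧ ¬ G.Adj x' m) :
    G.degree y + G.degree x' + M.card ≤ Fintype.card V + I.card := by
  have h1 := card_union_add_card_inter (G.neighborFinset y) (G.neighborFinset x')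
  rw [G.card_neighborFinset_eq_degree, G.card_neighborFinset_eq_degree] at h1
  have h2 := card_le_card hI
  have h3 : Disjoint M (G.neighborFinset y ∪ G.neighborFinset x') := by
    rw [Finset.disjoint_left]
    intro m hm hm2
    rw [mem_union, SimpleGraph.mem_neighborFinset, SimpleGraph.mem_neighborFinset] at hm2
    rcases hm2 with h | h
    · exact (hM m hm).1 h
    · exact (hM m hm).2 h
  have h4 : (M ∪ (G.neighborFinset y ∪ G.neighborFinset x')).card ≤ Fintype.card V :=
    card_le_univ _
  rw [card_union_of_disjoint h3] at h4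
  omega

/-- `deg x + deg y ≤ N + 1` for a neighbour `y` of a vertex `x` with a partner `x'` -/
lemma deg_add_le (H : NoPath G) {x x' y : V} (hne : x ≠ x') (hd : G.degree x = G.degree x')
    (hxy : G.Adj x y) (hyx : y ≠ x') :
    G.degree y + G.degree x ≤ Fintype.card V + 1 := by
  have := card_bound (G := G) y x' {x} ∅ (inter_sub H hne hd hxy hyx) (by simp)
  rw [card_singleton, card_empty] at this
  omega

lemma deg_add_le' (H : NoPath G) {x x' y : V} (hne : x ≠ x') (hd : G.degree x = G.degree x')
    (hxy : G.Adj x y) (hyx : y ≠ x') (hna : ¬ G.Adj x x') :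
    G.degree y + G.degree x ≤ Fintype.card V := by
  have hI : G.neighborFinset y ∩ G.neighborFinset x' ⊆ ∅ := by
    intro z hz
    have h1 := inter_sub H hne hd hxy hyx hz
    rw [mem_singleton] at h1
    subst h1
    rw [mem_inter, SimpleGraph.mem_neighborFinset, SimpleGraph.mem_neighborFinset] at hz
    exact absurd hz.2.symm hna
  have := card_bound (G := G) y x' ∅ ∅ hI (by simp)
  rw [card_empty] at this
  omega

/-- sums of distinct integers which are at most `m` -/
lemma sum_distinct {α : Type*} [DecidableEq α] (f : α → ℤ) (S : Finset α) :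
    ∀ m : ℤ, Set.InjOn f (S : Set α) → (∀ v ∈ S, f v ≤ m) →
      2 * ∑ v ∈ S, f v ≤ 2 * (S.card : ℤ) * m - S.card * ((S.card : ℤ) - 1) := by
  induction S using Finset.induction_on_max_value f with
  | empty => intro m _ _; simp
  | insert a s ha hmax ih =>
    intro m hinj hm
    rw [sum_insert ha, card_insert_of_notMem ha]
    have h1 : ∀ v ∈ s, f v ≤ m - 1 := by
      intro v hv
      have h2 := hmax v hv
      have h3 : f v ≠ f a := by
        intro h
        have := hinj (by simp [hv]) (by simp) h
        subst this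
        exact ha hv
      have h4 := hm a (mem_insert_self _ _)
      omega
    have h5 := ih (m - 1) (hinj.mono (by simp)) h1
    have h6 := hm a (mem_insert_self _ _)
    push_cast
    nlinarith

lemma card_distinct {α : Type*} (f : α → ℤ) (S : Finset α) (l m : ℤ)
    (hinj : Set.InjOn f (S : Set α)) (hm : ∀ v ∈ S, l < f v ∧ f v ≤ m) (hlm : l ≤ m) :
    (S.card : ℤ) ≤ m - l := by
  have h := Finset.card_le_card_of_injOn f (s := S) (t := Finset.Ioc l m)
    (fun v hv => by
      have := hm v hv
      simp only [coe_Ioc, Set.mem_Ioc]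
      exact this) hinj
  rw [Int.card_Ioc] at h
  omega

/-- the vertex `v` is the only one of its degree -/
def Uniq (G : SimpleGraph V) [DecidableRel G.Adj] (v : V) : Prop :=
  ∀ v', G.degree v' = G.degree v → v' = v

instance (G : SimpleGraph V) [DecidableRel G.Adj] : DecidablePred (Uniq G) := by
  unfold Uniq; infer_instance

lemma not_uniq {v : V} (h : ¬ Uniq G v) : ∃ v', v ≠ v' ∧ G.degree v = G.degree v' := by
  unfold Uniq at h
  push Not at h
  obtain ⟨v', h1, h2⟩ := h
  exact ⟨v', h2.symm, h1.symm⟩

lemma uniq_injOn (S : Finset V) (hS : ∀ v ∈ S, Uniq G v) :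
    Set.InjOn (fun v => (G.degree v : ℤ)) (S : Set V) := by
  intro a ha b hb hab
  simp only [Nat.cast_inj] at hab
  exact hS b hb a hab

/-- the exceptional neighbours of a vertex `x` of unique degree -/
lemma exceptional (H : NoPath G) {x : V} (hx : Uniq G x) :
    (∀ y, G.Adj x y → ¬ Uniq G y → G.degree y + G.degree x ≤ Fintype.card V + 1) ∧
    (univ.filter (fun y => G.Adj x y ∧ ¬ Uniq G y ∧
      G.degree y + G.degree x = Fintype.card V + 1)).card ≤ 2 := by
  refine ⟨fun y hxy hy => ?_, ?_⟩
  · obtain ⟨y', hne, hd⟩ := not_uniq hy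
    have hxy' : x ≠ y' := by
      rintro rfl
      exact hy (by intro v' hv'; rw [hd] at hv'; rw [hx v' hv']; exact (hx y hd).symm)
    have := deg_add_le H hne hd hxy.symm hxy'
    omega
  · by_contra hcon
    push Not at hcon
    rw [Finset.two_lt_card] at hcon
    obtain ⟨a, ha, b, hb, c, hc, hab, hac, hbc⟩ := hcon
    simp only [mem_filter, mem_univ, true_and] at ha hb hc
    -- `N(x) ∩ N(b) ⊆ {a}` and `⊆ {c}`
    have hda : G.degree a = G.degree b := by omega
    have hdc : G.degree c = G.degree b := by omega
    have h1 := inter_sub H hab hda ha.1.symm hb.1.ne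
    have h2 := inter_sub H hbc.symm hdc hc.1.symm hb.1.ne
    have h3 : G.neighborFinset x ∩ G.neighborFinset b ⊆ ∅ := by
      intro z hz
      have e1 := h1 hz
      have e2 := h2 hz
      rw [mem_singleton] at e1 e2
      exact absurd (e1.symm.trans e2) hac
    have := card_bound (G := G) x b ∅ ∅ h3 (by simp)
    rw [card_empty] at this
    omega

end Pool.Agent.R866.EqDeg
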