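import Pool.Agent.R866.EqDeg.Main

/-!
# Equal-degree vertices joined by a path of length three: the theorem (MP_b875bc_co)
-/

namespace Pool.Agent.R866.EqDeg

open Finset

variable {V : Type*} [Fintype V] [DecidableEq V] {G : SimpleGraph V} [DecidableRel G.Adj]

/-- the degree as an integer -/
abbrev dg (G : SimpleGraph V) [DecidableRel G.Adj] (v : V) : ℤ := (G.degree v : ℤ)

lemma sum_le_mul (S : Finset V) (m : ℤ) (h : ∀ v ∈ S, dg G v ≤ m) :
    ∑ v ∈ S, 2 * dg G v ≤ 2 * (S.card : ℤ) * m := by
  have := Finset.sum_le_card_nsmul S (fun v => 2 * dg G v) (2 * m)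
    (fun v hv => by
      have := h v hv
      change 2 * dg G v ≤ 2 * m
      linarith)
  rw [nsmul_eq_mul] at this
  linarith

lemma sum_distinct' (S : Finset V) (m : ℤ) (hS : ∀ v ∈ S, Uniq G v) (h : ∀ v ∈ S, dg G v ≤ m) :
    ∑ v ∈ S, 2 * dg G v ≤ 2 * (S.card : ℤ) * m - S.card * ((S.card : ℤ) - 1) := by
  have := sum_distinct (dg G) S m (uniq_injOn S hS) h
  rw [← Finset.mul_sum]
  exact this

lemma split6 {α : Type*} [Fintype α] (pF pL pU pX : α → Prop) [DecidablePred pF]
    [DecidablePred pL] [DecidablePred pU] [DecidablePred pX] (hFL : ∀ v, pF v → pL v)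
    (hX : ∀ v, pX v → ¬ pU v ∧ pL v ∧ ¬ pF v) (g : α → ℤ) :
    ∑ v, g v = ∑ v ∈ univ.filter pF, g v + ∑ v ∈ univ.filter (fun v => pU v ∧ ¬ pL v), g v +
      ∑ v ∈ univ.filter (fun v => ¬ pU v ∧ ¬ pL v), g v +
      ∑ v ∈ univ.filter (fun v => pU v ∧ pL v ∧ ¬ pF v), g v +
      ∑ v ∈ univ.filter (fun v => ¬ pU v ∧ pL v ∧ ¬ pF v ∧ ¬ pX v), g v +
      ∑ v ∈ univ.filter pX, g v := by
  simp only [Finset.sum_filter]
  rw [← sum_add_distrib, ← sum_add_distrib, ← sum_add_distrib, ← sum_add_distrib,
    ← sum_add_distrib]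
  refine sum_congr rfl (fun v _ => ?_)
  have h1 := hFL v
  have h2 := hX v
  by_cases a : pF v <;> by_cases b : pL v <;> by_cases c : pU v <;> by_cases d : pX v <;>
    simp_all

lemma split4 {α : Type*} [Fintype α] (pF pU pX : α → Prop) [DecidablePred pF]
    [DecidablePred pU] [DecidablePred pX]
    (hX : ∀ v, pX v → ¬ pU v ∧ ¬ pF v) (g : α → ℤ) :
    ∑ v, g v = ∑ v ∈ univ.filter pF, g v + ∑ v ∈ univ.filter (fun v => pU v ∧ ¬ pF v), g v +
      ∑ v ∈ univ.filter (fun v => ¬ pU v ∧ ¬ pF v ∧ ¬ pX v), g v +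
      ∑ v ∈ univ.filter pX, g v := by
  simp only [Finset.sum_filter]
  rw [← sum_add_distrib, ← sum_add_distrib, ← sum_add_distrib]
  refine sum_congr rfl (fun v _ => ?_)
  have h2 := hX v
  by_cases a : pF v <;> by_cases c : pU v <;> by_cases d : pX v <;>
    simp_all

/-- the twin case -/
lemma twin_case (H : NoPath G) (hN : 5 ≤ Fintype.card V) {w w' : V} (hadj : G.Adj w w')
    (htw : (G.neighborFinset w).erase w' = (G.neighborFinset w').erase w)
    (hmax : ∀ v, ¬ Uniq G v → G.degree v ≤ G.degree w)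
    (hc : Fintype.card V + 1 ≤ 2 * G.degree w)
    (hT : (Fintype.card V : ℤ) ^ 2 + 3 ≤ ∑ v, 2 * dg G v) : False := by
  obtain ⟨N, hNdef⟩ : ∃ N, N = Fintype.card V := ⟨_, rfl⟩
  obtain ⟨d, hddef⟩ : ∃ d, d = G.degree w := ⟨_, rfl⟩
  set A := (G.neighborFinset w).erase w' with hA
  have hd' : G.degree w' = d := by
    have h1 := congrArg Finset.card htw
    rw [hA, card_erase_of_mem (by rw [SimpleGraph.mem_neighborFinset]; exact hadj),
      card_erase_of_mem (by rw [SimpleGraph.mem_neighborFinset]; exact hadj.symm),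
      G.card_neighborFinset_eq_degree, G.card_neighborFinset_eq_degree] at h1
    have h2 : 0 < G.degree w' := by
      rw [SimpleGraph.degree_pos_iff_exists_adj]; exact ⟨w, hadj.symm⟩
    omega
  have hAcard : A.card = d - 1 := by
    rw [hA, card_erase_of_mem (by rw [SimpleGraph.mem_neighborFinset]; exact hadj),
      G.card_neighborFinset_eq_degree, hddef]
  have hAw : ∀ y ∈ A, y ≠ w' ∧ G.Adj w y ∧ y ≠ w ∧ G.Adj w' y := by
    intro y hy
    have h1 := hy
    rw [hA, mem_erase, SimpleGraph.mem_neighborFinset] at h1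
    have h2 := hy
    rw [htw, mem_erase, SimpleGraph.mem_neighborFinset] at h2
    exact ⟨h1.1, h1.2, h2.1, h2.2⟩
  have hAinj : Set.InjOn (dg G) (A : Set V) := by
    intro a ha b hb hab
    by_contra hne
    have ha' := hAw a ha
    have hb' := hAw b hb
    have hab' : G.degree a = G.degree b := by exact_mod_cast hab
    exact H a b w w' hne hab' hb'.2.2.1.symm ha'.1.symm ha'.2.1.symm hadj hb'.2.2.2
  have hAle : ∀ y ∈ A, dg G y ≤ (N : ℤ) + 1 - d := by
    intro y hy
    have h := deg_add_le H hadj.ne (by rw [hd', hddef]) (hAw y hy).2.1 (hAw y hy).1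
    unfold dg
    omega
  -- the rest
  set U := univ \ (insert w (insert w' A)) with hU
  have hwA : w ∉ A := fun h => (hAw w h).2.2.1 rfl
  have hw'A : w' ∉ A := fun h => (hAw w' h).1 rfl
  have hwi : w ∉ insert w' A := by
    rw [mem_insert, not_or]; exact ⟨hadj.ne, hwA⟩
  have hIcard : (insert w (insert w' A)).card = A.card + 2 := by
    rw [card_insert_of_notMem hwi, card_insert_of_notMem hw'A]
  have hUcard : U.card + (A.card + 2) = N := by
    have := card_sdiff_add_card_eq_card (subset_univ (insert w (insert w' A)))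
    rw [hIcard, card_univ] at this
    rw [hU, hNdef]; exact this
  have hUw : ∀ u ∈ U, dg G u ≤ (N : ℤ) - 3 := by
    intro u hu
    rw [hU, mem_sdiff, mem_insert, mem_insert, not_or, not_or] at hu
    obtain ⟨-, hu1, hu2, hu3⟩ := hu
    have h1 : ¬ G.Adj u w := by
      intro h
      exact hu3 (by rw [hA, mem_erase, SimpleGraph.mem_neighborFinset]; exact ⟨hu2, h.symm⟩)
    have h2 : ¬ G.Adj u w' := by
      intro h
      exact hu3 (by rw [htw, mem_erase, SimpleGraph.mem_neighborFinset]; exact ⟨hu1, h.symm⟩)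
    have h3 : G.neighborFinset u ⊆ univ \ {u, w, w'} := by
      intro z hz
      rw [SimpleGraph.mem_neighborFinset] at hz
      rw [mem_sdiff, mem_insert, mem_insert, mem_singleton]
      refine ⟨mem_univ _, ?_⟩
      rintro (rfl | rfl | rfl)
      · exact G.loopless.irrefl _ hz
      · exact h1 hz
      · exact h2 hz
    have h4 := card_le_card h3
    have h5 := card_sdiff_add_card_eq_card (subset_univ ({u, w, w'} : Finset V))
    have h6 : ({u, w, w'} : Finset V).card = 3 := by
      rw [card_insert_of_notMem, card_pair hadj.ne]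
      rw [mem_insert, mem_singleton, not_or]; exact ⟨hu1, hu2⟩
    rw [h6, card_univ] at h5
    rw [G.card_neighborFinset_eq_degree] at h4
    unfold dg
    omega
  set U₁ := U.filter (fun u => d < G.degree u) with hU₁
  set U₂ := U.filter (fun u => ¬ d < G.degree u) with hU₂
  have hUsplit : ∑ u ∈ U, 2 * dg G u = ∑ u ∈ U₁, 2 * dg G u + ∑ u ∈ U₂, 2 * dg G u :=
    (sum_filter_add_sum_filter_not U _ _).symm
  have hUc : U₁.card + U₂.card = U.card := card_filter_add_card_filter_not _
  have b1 : ∑ u ∈ U₁, 2 * dg G u ≤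
      2 * (U₁.card : ℤ) * ((N : ℤ) - 3) - U₁.card * ((U₁.card : ℤ) - 1) := by
    apply sum_distinct'
    · intro v hv
      rw [hU₁, mem_filter] at hv
      by_contra hu
      have := hmax v hu
      omega
    · intro v hv
      exact hUw v (mem_of_mem_filter v hv)
  have b2 : ∑ u ∈ U₂, 2 * dg G u ≤ (U₂.card : ℤ) * min (2 * (d : ℤ)) (2 * ((N : ℤ) - 3)) := by
    have := Finset.sum_le_card_nsmul U₂ (fun v => 2 * dg G v) (min (2 * (d : ℤ)) (2 * ((N : ℤ) - 3)))
      (fun v hv => by
        rw [hU₂, mem_filter] at hv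
        have h1 := hUw v hv.1
        have h2 : dg G v ≤ d := by unfold dg; omega
        simp only [le_min_iff]
        constructor <;> linarith)
    rwa [nsmul_eq_mul] at this
  have b3 : ∑ v ∈ A, 2 * dg G v ≤
      2 * (A.card : ℤ) * ((N : ℤ) + 1 - d) - A.card * ((A.card : ℤ) - 1) := by
    have := sum_distinct (dg G) A _ hAinj hAle
    rw [← Finset.mul_sum]
    exact this
  have hsum : ∑ v, 2 * dg G v = ∑ u ∈ U, 2 * dg G u + (2 * dg G w + (2 * dg G w' +
      ∑ v ∈ A, 2 * dg G v)) := by
    rw [← sum_sdiff (subset_univ (insert w (insert w' A))), sum_insert hwi, sum_insert hw'A]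
  have e1 : dg G w = d := by unfold dg; rw [hddef]
  have e2 : dg G w' = d := by unfold dg; rw [hd']
  rw [hsum, hUsplit, e1, e2] at hT
  have hd1 : 1 ≤ d := by omega
  have hAc : (A.card : ℤ) = (d : ℤ) - 1 := by omega
  have hU₂c : (U₂.card : ℤ) = (U.card : ℤ) - U₁.card := by omega
  rw [hAc] at b3
  rw [hU₂c] at b2
  refine arith_twin (N := (N : ℤ)) (a := (d : ℤ) - 1) (k := (U₁.card : ℤ)) (r := (U.card : ℤ))
    (d := (d : ℤ)) (by omega) rfl (by omega) (by omega) (by omega) (by omega) ?_
  rw [← hNdef] at hT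
  linarith

/-- **Main theorem**: a graph with `N ≥ 5` vertices, `N` odd, and `4 e ≥ N^2 + 3` contains two
vertices of equal degree joined by a path of length three. -/
theorem not_noPath (hN : 5 ≤ Fintype.card V) (hodd : Odd (Fintype.card V))
    (hT : (Fintype.card V : ℤ) ^ 2 + 3 ≤ ∑ v, 2 * dg G v) : ¬ NoPath G := by
  intro H
  have hne : (univ : Finset V).Nonempty := by
    rw [← card_pos, card_univ]; omega
  obtain ⟨x₁, -, hx₁⟩ := exists_max_image univ (fun v => G.degree v) hne
  obtain ⟨N, hNdef⟩ : ∃ N, N = Fintype.card V := ⟨_, rfl⟩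
  obtain ⟨d₁, hd₁def⟩ : ∃ d, d = G.degree x₁ := ⟨_, rfl⟩
  rw [← hNdef] at hT hN hodd
  have hmax₁ : ∀ v, G.degree v ≤ d₁ := fun v => by rw [hd₁def]; exact hx₁ v (mem_univ v)
  have hd₁N : d₁ + 1 ≤ N := by
    have := G.degree_lt_card_verts x₁
    omega
  have hd₁c : N + 1 ≤ 2 * d₁ := by
    have h1 := sum_le_mul (G := G) univ d₁ (fun v _ => by
      have := hmax₁ v; unfold dg; omega)
    rw [card_univ, ← hNdef] at h1
    by_contra hcon
    have h2 : (2 * d₁ : ℤ) ≤ N := by omega
    have h3 : 2 * (N : ℤ) * d₁ ≤ N * N := by nlinarith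
    nlinarith
  -- the exceptional set of `x₁`
  set X := univ.filter (fun y => G.Adj x₁ y ∧ ¬ Uniq G y ∧
      G.degree y + G.degree x₁ = Fintype.card V + 1) with hX
  by_cases hW : ∃ v, ¬ Uniq G v ∧ N + 1 ≤ 2 * G.degree v
  · -- there is a vertex of repeated degree above `N / 2`
    obtain ⟨v₀, hv₀, hv₀'⟩ := hW
    have hne2 : (univ.filter (fun v => ¬ Uniq G v)).Nonempty :=
      ⟨v₀, by rw [mem_filter]; exact ⟨mem_univ _, hv₀⟩⟩
    obtain ⟨w, hw, hwmax⟩ := exists_max_image _ (fun v => G.degree v) hne2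
    rw [mem_filter] at hw
    obtain ⟨d, hddef⟩ : ∃ d, d = G.degree w := ⟨_, rfl⟩
    have hmaxW : ∀ v, ¬ Uniq G v → G.degree v ≤ d := by
      intro v hv
      rw [hddef]
      exact hwmax v (by rw [mem_filter]; exact ⟨mem_univ _, hv⟩)
    have hdc : N + 1 ≤ 2 * d := by
      have := hmaxW v₀ hv₀
      omega
    obtain ⟨w', hww', hdw'⟩ := not_uniq hw.2
    by_cases htw : G.Adj w w' ∧ (G.neighborFinset w).erase w' = (G.neighborFinset w').erase w
    · exact twin_case H (by omega) htw.1 htw.2 (fun v hv => by rw [← hddef]; exact hmaxW v hv)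
        (by omega) (by rw [← hNdef]; exact hT)
    have hlow := low_count H hww' hdw' htw
    rw [← hddef, ← hNdef] at hlow
    by_cases hdd : d₁ ≤ d
    · -- the top degree is repeated
      have hdd' : d₁ = d := le_antisymm hdd (by rw [hddef]; exact hmax₁ w)
      have s1 := sum_filter_add_sum_filter_not univ (fun v => G.degree v + d ≤ N)
        (fun v => 2 * dg G v)
      have b1 := sum_le_mul (G := G) (univ.filter (fun v => G.degree v + d ≤ N)) ((N : ℤ) - d)
        (fun v hv => by rw [mem_filter] at hv; unfold dg; omega)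
      have b2 := sum_le_mul (G := G) (univ.filter (fun v => ¬ G.degree v + d ≤ N)) (d : ℤ)
        (fun v hv => by have := hmax₁ v; unfold dg; omega)
      have c1 := card_filter_add_card_filter_not (s := (univ : Finset V))
        (fun v => G.degree v + d ≤ N)
      rw [card_univ, ← hNdef] at c1
      obtain ⟨p, hp⟩ : ∃ p, p = (univ.filter (fun v => G.degree v + d ≤ N)).card := ⟨_, rfl⟩
      obtain ⟨q, hq⟩ : ∃ q, q = (univ.filter (fun v => ¬ G.degree v + d ≤ N)).card := ⟨_, rfl⟩
      rw [← hp] at b1 c1 hlow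
      rw [← hq] at b2 c1
      rw [← s1] at hT
      have h1 : (N : ℤ) ^ 2 + 3 ≤ 2 * p * (N - d) + 2 * q * d := by linarith
      have h2 : (q : ℤ) = N - p := by omega
      rw [h2] at h1
      have h3 : (d : ℤ) ≤ p := by exact_mod_cast hlow
      have h4 : (1 : ℤ) ≤ 2 * d - N := by omega
      nlinarith [mul_nonneg (sub_nonneg.2 h3) (by omega : (0 : ℤ) ≤ 2 * d - N)]
    · push Not at hdd
      have hx₁u : Uniq G x₁ := by
        by_contra hu
        have := hmaxW x₁ hu
        omega
      obtain ⟨hex1, hex2⟩ := exceptional H hx₁u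
      rw [← hX] at hex2
      -- the partition
      set F := univ.filter (fun v => G.degree v + d₁ ≤ N) with hF
      set Q₁ := univ.filter (fun v => Uniq G v ∧ ¬ G.degree v + d ≤ N) with hQ₁
      set W₁ := univ.filter (fun v => ¬ Uniq G v ∧ ¬ G.degree v + d ≤ N) with hW₁
      set Q₂ := univ.filter (fun v => Uniq G v ∧ G.degree v + d ≤ N ∧ ¬ G.degree v + d₁ ≤ N)
        with hQ₂
      set W₂ := univ.filter (fun v => ¬ Uniq G v ∧ G.degree v + d ≤ N ∧
        ¬ G.degree v + d₁ ≤ N ∧ ¬ (G.Adj x₁ v ∧ ¬ Uniq G v ∧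
          G.degree v + G.degree x₁ = Fintype.card V + 1)) with hW₂
      have hsplit : ∀ g : V → ℤ, ∑ v, g v = ∑ v ∈ F, g v + ∑ v ∈ Q₁, g v + ∑ v ∈ W₁, g v +
          ∑ v ∈ Q₂, g v + ∑ v ∈ W₂, g v + ∑ v ∈ X, g v :=
        split6 (fun v => G.degree v + d₁ ≤ N) (fun v => G.degree v + d ≤ N) (fun v => Uniq G v)
          (fun v => G.Adj x₁ v ∧ ¬ Uniq G v ∧ G.degree v + G.degree x₁ = Fintype.card V + 1)
          (fun v hv => by omega) (fun v hv => ⟨hv.2.1, by omega, by omega⟩)
      have hcard : (N : ℤ) = F.card + Q₁.card + W₁.card + Q₂.card + W₂.card + X.card := by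
        have := hsplit (fun _ => 1)
        simpa [hNdef] using this
      have b1 := sum_le_mul (G := G) F ((N : ℤ) - d₁)
        (fun v hv => by rw [hF, mem_filter] at hv; unfold dg; omega)
      have b2 := sum_distinct' (G := G) Q₁ (d₁ : ℤ)
        (fun v hv => by rw [hQ₁, mem_filter] at hv; exact hv.2.1)
        (fun v hv => by have := hmax₁ v; unfold dg; omega)
      have b3 := sum_le_mul (G := G) W₁ (d : ℤ)
        (fun v hv => by
          rw [hW₁, mem_filter] at hv
          have := hmaxW v hv.2.1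
          unfold dg; omega)
      have b4 := sum_distinct' (G := G) Q₂ ((N : ℤ) - d)
        (fun v hv => by rw [hQ₂, mem_filter] at hv; exact hv.2.1)
        (fun v hv => by rw [hQ₂, mem_filter] at hv; unfold dg; omega)
      have b5 := sum_le_mul (G := G) W₂ ((N : ℤ) - d)
        (fun v hv => by rw [hW₂, mem_filter] at hv; unfold dg; omega)
      have b6 := sum_le_mul (G := G) X ((N : ℤ) + 1 - d₁)
        (fun v hv => by rw [hX, mem_filter] at hv; unfold dg; omega)
      -- (a)
      have ha : (Q₁.card : ℤ) + W₁.card ≤ N - d := by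
        have h1 : univ.filter (fun v => ¬ G.degree v + d ≤ N) = Q₁ ∪ W₁ := by
          ext v
          rw [hQ₁, hW₁, mem_union, mem_filter, mem_filter, mem_filter]
          tauto
        have h2 : Disjoint Q₁ W₁ := by
          rw [Finset.disjoint_left]
          intro v hv hv'
          rw [hQ₁, mem_filter] at hv
          rw [hW₁, mem_filter] at hv'
          exact hv'.2.1 hv.2.1
        have c1 := card_filter_add_card_filter_not (s := (univ : Finset V))
          (fun v => G.degree v + d ≤ N)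
        rw [card_univ, ← hNdef, h1, card_union_of_disjoint h2] at c1
        omega
      -- (b)
      have hb : (d₁ : ℤ) ≤ Q₁.card - 1 + Q₂.card + X.card + F.card := by
        have hsub : G.neighborFinset x₁ ⊆ (Q₁.erase x₁) ∪ Q₂ ∪ X ∪ F := by
          intro y hy
          rw [SimpleGraph.mem_neighborFinset] at hy
          rw [mem_union, mem_union, mem_union, mem_erase, hQ₁, hQ₂, hX, hF, mem_filter,
            mem_filter, mem_filter, mem_filter]
          by_cases hUy : Uniq G y
          · by_cases hFy : G.degree y + d₁ ≤ N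
            · exact Or.inr ⟨mem_univ _, hFy⟩
            · by_cases hLy : G.degree y + d ≤ N
              · exact Or.inl (Or.inl (Or.inr ⟨mem_univ _, hUy, hLy, hFy⟩))
              · exact Or.inl (Or.inl (Or.inl ⟨hy.ne', mem_univ _, hUy, hLy⟩))
          · have h1 := hex1 y hy hUy
            by_cases h2 : G.degree y + G.degree x₁ = Fintype.card V + 1
            · exact Or.inl (Or.inr ⟨mem_univ _, hy, hUy, h2⟩)
            · exact Or.inr ⟨mem_univ _, by omega⟩
        have h1 := card_le_card hsub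
        rw [G.card_neighborFinset_eq_degree] at h1
        have h2 := card_union_le ((Q₁.erase x₁) ∪ Q₂ ∪ X) F
        have h3 := card_union_le ((Q₁.erase x₁) ∪ Q₂) X
        have h4 := card_union_le (Q₁.erase x₁) Q₂
        have hmem : x₁ ∈ Q₁ := by
          rw [hQ₁, mem_filter]
          exact ⟨mem_univ _, hx₁u, by omega⟩
        have h5 := card_erase_of_mem hmem
        have h6 : 1 ≤ Q₁.card := card_pos.2 ⟨x₁, hmem⟩
        omega
      have hq₁ : (Q₁.card : ℤ) ≤ d₁ + d - N := by
        have := card_distinct (dg G) Q₁ ((N : ℤ) - d) d₁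
          (uniq_injOn Q₁ (fun v hv => by rw [hQ₁, mem_filter] at hv; exact hv.2.1))
          (fun v hv => by
            rw [hQ₁, mem_filter] at hv
            have := hmax₁ v
            unfold dg
            constructor <;> omega) (by omega)
        omega
      refine arith_main (N := (N : ℤ)) (d₁ := (d₁ : ℤ)) (d := (d : ℤ)) (q₁ := (Q₁.card : ℤ))
        (w₁ := (W₁.card : ℤ)) (q₂ := (Q₂.card : ℤ)) (w₂ := (W₂.card : ℤ) + X.card)
        (f := (F.card : ℤ)) (ξ := (X.card : ℤ)) (T := ∑ v, 2 * dg G v)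
        (by omega) hT ?_ ha hb (by omega) (by omega) (by omega) (by omega) hq₁
      rw [hsplit (fun v => 2 * dg G v)]
      linarith
  · -- all vertices of repeated degree have degree below `N / 2`
    push Not at hW
    have hWlt : ∀ v, ¬ Uniq G v → 2 * G.degree v + 1 ≤ N := by
      intro v hv
      have := hW v hv
      obtain ⟨m, hm⟩ := hodd
      omega
    have hx₁u : Uniq G x₁ := by
      by_contra hu
      have := hWlt x₁ hu
      omega
    obtain ⟨hex1, hex2⟩ := exceptional H hx₁u
    rw [← hX] at hex2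
    set F := univ.filter (fun v => G.degree v + d₁ ≤ N) with hF
    set Q := univ.filter (fun v => Uniq G v ∧ ¬ G.degree v + d₁ ≤ N) with hQ
    set W := univ.filter (fun v => ¬ Uniq G v ∧ ¬ G.degree v + d₁ ≤ N ∧ ¬ (G.Adj x₁ v ∧
      ¬ Uniq G v ∧ G.degree v + G.degree x₁ = Fintype.card V + 1)) with hWdef
    have hsplit : ∀ g : V → ℤ, ∑ v, g v = ∑ v ∈ F, g v + ∑ v ∈ Q, g v + ∑ v ∈ W, g v +
        ∑ v ∈ X, g v :=
      split4 (fun v => G.degree v + d₁ ≤ N) (fun v => Uniq G v)
        (fun v => G.Adj x₁ v ∧ ¬ Uniq G v ∧ G.degree v + G.degree x₁ = Fintype.card V + 1)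
        (fun v hv => ⟨hv.2.1, by omega⟩)
    have hcard : (N : ℤ) = F.card + Q.card + W.card + X.card := by
      have := hsplit (fun _ => 1)
      simpa [hNdef] using this
    have b1 := sum_le_mul (G := G) F ((N : ℤ) - d₁)
      (fun v hv => by rw [hF, mem_filter] at hv; unfold dg; omega)
    have b2 := sum_distinct' (G := G) Q (d₁ : ℤ)
      (fun v hv => by rw [hQ, mem_filter] at hv; exact hv.2.1)
      (fun v hv => by have := hmax₁ v; unfold dg; omega)
    have b3 : ∑ v ∈ W, 2 * dg G v ≤ (W.card : ℤ) * ((N : ℤ) - 1) := by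
      have := Finset.sum_le_card_nsmul W (fun v => 2 * dg G v) ((N : ℤ) - 1)
        (fun v hv => by
          rw [hWdef, mem_filter] at hv
          have := hWlt v hv.2.1
          simp only [dg]
          omega)
      rwa [nsmul_eq_mul] at this
    have b6 := sum_le_mul (G := G) X ((N : ℤ) + 1 - d₁)
      (fun v hv => by rw [hX, mem_filter] at hv; unfold dg; omega)
    have hb : (d₁ : ℤ) ≤ Q.card - 1 + X.card + F.card := by
      have hsub : G.neighborFinset x₁ ⊆ (Q.erase x₁) ∪ X ∪ F := by
        intro y hy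
        rw [SimpleGraph.mem_neighborFinset] at hy
        rw [mem_union, mem_union, mem_erase, hQ, hX, hF, mem_filter, mem_filter, mem_filter]
        by_cases hUy : Uniq G y
        · by_cases hFy : G.degree y + d₁ ≤ N
          · exact Or.inr ⟨mem_univ _, hFy⟩
          · exact Or.inl (Or.inl ⟨hy.ne', mem_univ _, hUy, hFy⟩)
        · have h1 := hex1 y hy hUy
          by_cases h2 : G.degree y + G.degree x₁ = Fintype.card V + 1
          · exact Or.inl (Or.inr ⟨mem_univ _, hy, hUy, h2⟩)
          · exact Or.inr ⟨mem_univ _, by omega⟩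
      have h1 := card_le_card hsub
      rw [G.card_neighborFinset_eq_degree] at h1
      have h2 := card_union_le ((Q.erase x₁) ∪ X) F
      have h3 := card_union_le (Q.erase x₁) X
      have hmem : x₁ ∈ Q := by
        rw [hQ, mem_filter]
        exact ⟨mem_univ _, hx₁u, by omega⟩
      have h5 := card_erase_of_mem hmem
      have h6 : 1 ≤ Q.card := card_pos.2 ⟨x₁, hmem⟩
      omega
    have hq : (Q.card : ℤ) ≤ 2 * d₁ - N := by
      have := card_distinct (dg G) Q ((N : ℤ) - d₁) d₁
        (uniq_injOn Q (fun v hv => by rw [hQ, mem_filter] at hv; exact hv.2.1))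
        (fun v hv => by
          rw [hQ, mem_filter] at hv
          have := hmax₁ v
          unfold dg
          constructor <;> omega) (by omega)
      omega
    have hX0 : 2 * (d₁ : ℤ) = N + 1 → (X.card : ℤ) = 0 := by
      intro h
      have : X = ∅ := by
        rw [Finset.eq_empty_iff_forall_notMem]
        intro v hv
        rw [hX, mem_filter] at hv
        have := hWlt v hv.2.2.1
        omega
      rw [this]; simp
    refine arith_low (N := (N : ℤ)) (d₁ := (d₁ : ℤ)) (u := (Q.card : ℤ))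
      (w := (W.card : ℤ) + X.card)
      (f := (F.card : ℤ)) (ξ := (X.card : ℤ)) (T := ∑ v, 2 * dg G v)
      (by omega) hT ?_ hb (by omega) (by omega) (by omega) (by omega) hX0 (by omega) hq
    rw [hsplit (fun v => 2 * dg G v)]
    linarith

end Pool.Agent.R866.EqDeg
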