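import Pool.Agent.R866.EqDeg.Basic

/-!
# Equal-degree vertices joined by a path of length three: the counting argument (MP_b875bc_co)
-/

namespace Pool.Agent.R866.EqDeg

open Finset

variable {V : Type*} [Fintype V] [DecidableEq V] {G : SimpleGraph V} [DecidableRel G.Adj]

/-- Two vertices `w, w'` of equal degree `d` which are not true twins: at least `d` vertices have
degree at most `N - d`. -/
lemma low_count (H : NoPath G) {w w' : V} (hne : w ≠ w') (hd : G.degree w = G.degree w')
    (htw : ¬ (G.Adj w w' ∧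
      (G.neighborFinset w).erase w' = (G.neighborFinset w').erase w)) :
    G.degree w ≤ (univ.filter (fun v => G.degree v + G.degree w ≤ Fintype.card V)).card := by
  by_cases hadj : G.Adj w w'
  · -- adjacent, but not twins
    have hne2 : (G.neighborFinset w).erase w' ≠ (G.neighborFinset w').erase w :=
      fun h => htw ⟨hadj, h⟩
    have c1 : ((G.neighborFinset w).erase w').card = G.degree w - 1 := by
      rw [card_erase_of_mem (by rw [SimpleGraph.mem_neighborFinset]; exact hadj),
        G.card_neighborFinset_eq_degree]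
    have c2 : ((G.neighborFinset w').erase w).card = G.degree w - 1 := by
      rw [card_erase_of_mem (by rw [SimpleGraph.mem_neighborFinset]; exact hadj.symm),
        G.card_neighborFinset_eq_degree, hd]
    have hex : ∃ y₀ ∈ (G.neighborFinset w').erase w, y₀ ∉ (G.neighborFinset w).erase w' := by
      by_contra hcon
      push Not at hcon
      exact hne2 (eq_of_subset_of_card_le hcon (by rw [c1, c2])).symm
    obtain ⟨y₀, h1, h2⟩ := hex
    rw [mem_erase, SimpleGraph.mem_neighborFinset] at h1
    have hy0w' : y₀ ≠ w' := h1.2.ne'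
    have hy0w : ¬ G.Adj w y₀ := by
      intro h
      exact h2 (by rw [mem_erase, SimpleGraph.mem_neighborFinset]; exact ⟨hy0w', h⟩)
    have hsub : insert y₀ ((G.neighborFinset w).erase w') ⊆
        univ.filter (fun v => G.degree v + G.degree w ≤ Fintype.card V) := by
      intro y hy
      rw [mem_filter]
      refine ⟨mem_univ _, ?_⟩
      rw [mem_insert, mem_erase, SimpleGraph.mem_neighborFinset] at hy
      rcases hy with rfl | ⟨hy1, hy2⟩
      · -- `y = y₀`
        have := card_bound (G := G) y w {w'} {w}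
          (inter_sub H hne.symm hd.symm h1.2 h1.1)
          (by
            intro m hm
            rw [mem_singleton] at hm
            subst hm
            exact ⟨fun h => hy0w h.symm, G.loopless.irrefl _⟩)
        rw [card_singleton, card_singleton] at this
        omega
      · by_cases hyw' : G.Adj y w'
        · -- common neighbour
          have := card_bound (G := G) y w {w'} {y₀}
            (inter_sub H hne.symm hd.symm hyw'.symm hy2.ne')
            (by
              intro m hm
              rw [mem_singleton] at hm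
              subst hm
              refine ⟨fun h => ?_, hy0w⟩
              have h3 := inter_sub H hne hd hy2 hy1
                (mem_inter.2 ⟨(G.mem_neighborFinset y m).2 h, (G.mem_neighborFinset w' m).2 h1.2⟩)
              rw [mem_singleton] at h3
              exact h1.1 h3)
          rw [card_singleton, card_singleton] at this
          omega
        · have := card_bound (G := G) y w' {w} {w'}
            (inter_sub H hne hd hy2 hy1)
            (by
              intro m hm
              rw [mem_singleton] at hm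
              subst hm
              exact ⟨hyw', G.loopless.irrefl _⟩)
          rw [card_singleton, card_singleton] at this
          omega
    have h3 := card_le_card hsub
    rw [card_insert_of_notMem h2, c1] at h3
    have h4 : 0 < G.degree w := by
      rw [SimpleGraph.degree_pos_iff_exists_adj]; exact ⟨w', hadj⟩
    omega
  · have hsub : G.neighborFinset w ⊆
        univ.filter (fun v => G.degree v + G.degree w ≤ Fintype.card V) := by
      intro y hy
      rw [SimpleGraph.mem_neighborFinset] at hy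
      rw [mem_filter]
      refine ⟨mem_univ _, deg_add_le' H hne hd hy ?_ hadj⟩
      rintro rfl
      exact hadj hy
    have h3 := card_le_card hsub
    rwa [G.card_neighborFinset_eq_degree] at h3

/-- arithmetic of the twin case -/
lemma arith_twin {N a k r d : ℤ} (hN : 5 ≤ N) (ha : a = d - 1) (hr : r = N - 2 - a)
    (hc : N + 1 ≤ 2 * d) (hk0 : 0 ≤ k) (hkr : k ≤ r)
    (h : N ^ 2 + 3 ≤ (2 * a * (N + 1 - d) - a * (a - 1)) + 4 * d +
      (2 * k * (N - 3) - k * (k - 1)) + (r - k) * min (2 * d) (2 * (N - 3))) : False := by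
  have h1 : 2 ≤ a := by omega
  by_cases ha3 : 3 ≤ a
  · have h2 : min (2 * d) (2 * (N - 3)) ≤ 2 * d := min_le_left _ _
    have h3 : (r - k) * min (2 * d) (2 * (N - 3)) ≤ (r - k) * (2 * d) :=
      mul_le_mul_of_nonneg_left h2 (by omega)
    have h4 : 0 ≤ (r - 1 - k) * (r - 2 - k) := by
      rcases le_or_gt k (r - 2) with h | h
      · exact mul_nonneg (by omega) (by omega)
      · exact mul_nonneg_of_nonpos_of_nonpos (by omega) (by omega)
    subst ha
    subst hr
    nlinarith
  · have ha2 : a = 2 := by omega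
    have hd3 : d = 3 := by omega
    have hN5 : N = 5 := by omega
    subst ha2 hd3 hN5
    have hr1 : r = 1 := by omega
    subst hr1
    have hk : k = 0 ∨ k = 1 := by omega
    rcases hk with rfl | rfl
    · norm_num at h
    · norm_num at h

/-- arithmetic of the main case -/
lemma arith_main {N d₁ d q₁ w₁ q₂ w₂ f ξ T : ℤ}
    (hN : N = q₁ + w₁ + q₂ + w₂ + f) (hT : N ^ 2 + 3 ≤ T)
    (hub : T ≤ 2 * (N - d₁) * f + (2 * q₁ * d₁ - q₁ * (q₁ - 1)) + 2 * d * w₁ +
      (2 * q₂ * (N - d) - q₂ * (q₂ - 1)) + 2 * (w₂ - ξ) * (N - d) + 2 * ξ * (N + 1 - d₁))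
    (ha : q₁ + w₁ ≤ N - d) (hb : d₁ ≤ q₁ - 1 + q₂ + ξ + f)
    (hc : N + 1 ≤ 2 * d) (hs : d + 1 ≤ d₁) (hd₁ : d₁ + 1 ≤ N) (hξ2 : ξ ≤ 2)
    (hq₁ : q₁ ≤ d₁ + d - N) : False := by
  obtain ⟨s, hs'⟩ : ∃ s, s = d₁ - d := ⟨_, rfl⟩
  obtain ⟨c, hc'⟩ : ∃ c, c = 2 * d - N := ⟨_, rfl⟩
  have hs1 : 1 ≤ s := by omega
  have hc1 : 1 ≤ c := by omega
  have hd : d = d₁ - s := by omega
  have hNN : N = 2 * d₁ - 2 * s - c := by omega
  have hd₁' : 2 * s + c + 1 ≤ d₁ := by omega
  -- the main inequality
  have key : 3 ≤ 2 * s * (2 * q₁ + q₂ - 1 - d₁) - q₁ ^ 2 + q₁ - q₂ ^ 2 + q₂ - c ^ 2 + 2 * ξ := by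
    have e1 : c * (q₁ + w₁) ≤ c * (N - d) := mul_le_mul_of_nonneg_left ha (by omega)
    have e2 : s * d₁ ≤ s * (q₁ - 1 + q₂ + ξ + f) := mul_le_mul_of_nonneg_left hb (by omega)
    have hw₂ : w₂ = N - q₁ - w₁ - q₂ - f := by omega
    subst hw₂
    subst hd
    have hNd : N - (d₁ - s) = d₁ - s - c := by omega
    rw [hNd] at e1
    subst hNN
    nlinarith
  have e3 : 2 * s * d₁ ≥ 2 * s * (2 * s + c + 1) := by nlinarith
  have e4 : 0 ≤ (q₂ - s) * (q₂ - s - 1) := by
    rcases le_or_gt q₂ s with h | h
    · exact mul_nonneg_of_nonpos_of_nonpos (by omega) (by omega)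
    · exact mul_nonneg (by omega) (by omega)
  rcases le_or_gt s (2 * c) with h | h
  · have e5 : 0 ≤ (q₁ - 2 * s) * (q₁ - 2 * s - 1) := by
      rcases le_or_gt q₁ (2 * s) with h | h
      · exact mul_nonneg_of_nonpos_of_nonpos (by omega) (by omega)
      · exact mul_nonneg (by omega) (by omega)
    have e6 : s * s ≤ 2 * s * c := by nlinarith
    nlinarith
  · have hM : q₁ ≤ c + s := by omega
    have e5 : 0 ≤ (c + s - q₁) * (4 * s + 1 - (c + s) - q₁) := mul_nonneg (by omega) (by omega)
    nlinarith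

/-- arithmetic of the case in which only vertices of unique degree have degree above `N/2` -/
lemma arith_low {N d₁ u w f ξ T : ℤ}
    (hN : N = u + w + f) (hT : N ^ 2 + 3 ≤ T)
    (hub : T ≤ 2 * (N - d₁) * f + (2 * u * d₁ - u * (u - 1)) + (w - ξ) * (N - 1) +
      2 * ξ * (N + 1 - d₁))
    (hb : d₁ ≤ u - 1 + ξ + f) (hc : N + 1 ≤ 2 * d₁) (hd₁ : d₁ + 1 ≤ N)
    (hξ : 0 ≤ ξ) (hξ2 : ξ ≤ 2) (hξ0 : 2 * d₁ = N + 1 → ξ = 0) (hwξ : ξ ≤ w)
    (hu : u ≤ 2 * d₁ - N) : False := by
  obtain ⟨D, hD⟩ : ∃ D, D = 2 * d₁ - N := ⟨_, rfl⟩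
  have hD1 : 1 ≤ D := by omega
  have hNN : N = 2 * d₁ - D := by omega
  have hd₁' : D + 1 ≤ d₁ := by omega
  have key : 3 ≤ 2 * D * u - u ^ 2 + u + 2 * ξ - D * (d₁ + 1) := by
    have e2 : D * d₁ ≤ D * (u - 1 + ξ + f) := mul_le_mul_of_nonneg_left hb (by omega)
    have hw : w = N - u - f := by omega
    subst hw
    subst hNN
    nlinarith
  have e3 : D * d₁ ≥ D * (D + 1) := by nlinarith
  have e4 : 0 ≤ (D - u) * (D - u + 1) := mul_nonneg (by omega) (by omega)
  have e5 : 3 ≤ - D + 2 * ξ := by nlinarith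
  rcases eq_or_lt_of_le hD1 with h | h
  · have := hξ0 (by omega)
    omega
  · omega

end Pool.Agent.R866.EqDeg
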